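import Pool.Agent.TH144.AE.Main

/-!
# A strongly approximately elliptically connected variety with nontrivial Kobayashi pseudodistance

Let `C` be the Fermat quartic `b₀⁴ = b₁⁴ + b₂⁴`, with the total flex `p = (1 : 1 : 0)`. The variety
is the image of `C × C × P¹` in a projective space under
`(b, c, s) ↦ (Ψ ⊗ Ψ : (b₀ - b₁)(c₀ - c₁) b ⊗ c ⊗ s ⊗ s)`, where `Ψ` is the vector of the coefficients
of the product of the binary forms `(b₀, b₁)`, `(c₀, c₁)`, `(s₀, s₁)`. The map is injective outside
the surfaces `b = p` and `c = p`, on which the three binary forms may be permuted. A morphism that
contracts one of the conics `{b} × {c} × P¹` is constant, so that every embedding in a product of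
two projective spaces embeds every conic by binary forms, and triple covers of the conics can be
perturbed to embedded smooth cubic curves through two prescribed points of nearby conics.
-/

set_option autoImplicit false

namespace Pool.Agent.Results.MP_879098_ag.StrongNotTrivial

open Pool.Agent.TH144.AE

theorem result : ∃ (ι : Type) (_ : Fintype ι) (X : Set (PS ι)),
    -- `X` is an irreducible projective variety
    IsVariety X ∧
    -- `X` is strongly approximately elliptically connected
    StronglyConnected X ∧
    -- the Kobayashi pseudodistance of `X` is not trivial
    ∃ p ∈ X, ∃ q ∈ X, 0 < kobayashi X p q :=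
  ⟨Idx, inferInstance, XX, XX_variety, XX_strong, Pool.Agent.TH959.J1082.XX_kobayashi⟩

end Pool.Agent.Results.MP_879098_ag.StrongNotTrivial
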